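import Pool.Agent.U29.DZ.Stm
import Pool.Agent.U594.RP.AVG

set_option autoImplicit false

/-!
# Project DZ (helper29), package AVGx: averages of the killed chain with position dependent weights over
arithmetic progressions (helper858, adapted from `Pool.Agent.U594.RP.AVG` of helper594)
-/

namespace Pool.Agent.U858.DZ

open Finset Pool.Agent.U762.RP Pool.Agent.U29.DZ Pool.Agent.U594.RP

variable {d : ℕ} {m r : ℤ → ℤ} {w : ℤ → ℤ → ℝ}

theorem Qx_nonneg (hw : ∀ x u, 0 ≤ w x u) (B : ℕ) (M Y : ℝ) {F : ℤ → ℝ}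
    (hF : ∀ x, 0 ≤ F x) (x : ℤ) : 0 ≤ Qx d m r w B M Y F x := by
  unfold Qx
  split_ifs
  · exact Finset.sum_nonneg fun u _ => mul_nonneg (hw x u) (hF _)
  · exact le_rfl

theorem Qxit_nonneg (hw : ∀ x u, 0 ≤ w x u) (B : ℕ) (M Y θ : ℝ) (k : ℕ) :
    ∀ x, 0 ≤ (Qx d m r w B M Y)^[k] (V M θ) x := by
  induction k with
  | zero => exact V_nonneg M θ
  | succ k ih =>
    intro x
    rw [Function.iterate_succ_apply']
    exact Qx_nonneg hw B M Y ih x

/-- the pointwise bound -/
theorem pw (h : Rel d m r) {θ ζ : ℝ} (hθ : 0 < θ) (hζ : 0 < ζ) {B : ℕ} {M Y η R : ℝ}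
    (_hM0 : 1 ≤ M) (hM : ∀ j ∈ range d, (|((r (j : ℤ) : ℤ) : ℝ)| + d * B) / ζ ≤ M)
    (hW : Wts w B M Y η) (hR : 1 ≤ R) (hfR : ∀ j ∈ range d, fac d m ζ j ^ θ ≤ R) (k : ℕ) :
    ∀ x : ℤ, (Qx d m r w B M Y)^[k] (V M θ) x ≤ R ^ k * |(x : ℝ)| ^ θ := by
  have hd : 0 < d := by have := h.two_le; omega
  have hd' : (0 : ℤ) < d := by exact_mod_cast hd
  have hdR : (0 : ℝ) < d := by exact_mod_cast hd
  induction k with
  | zero =>
    intro x
    simp only [Function.iterate_zero, id_eq, pow_zero, one_mul]
    unfold V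
    split_ifs
    · exact Real.rpow_nonneg (abs_nonneg _) _
    · exact le_rfl
  | succ k ih =>
    intro x
    rw [Function.iterate_succ_apply']
    have hx0 : 0 ≤ |(x : ℝ)| ^ θ := Real.rpow_nonneg (abs_nonneg _) _
    have hR0 : 0 ≤ R := by linarith
    unfold Qx
    split_ifs with hx
    · set j : ℕ := (x % d).toNat with hj
      have hj1 := Int.emod_nonneg x hd'.ne'
      have hj2 := Int.emod_lt_of_pos x hd'
      have hjj : x % d = (j : ℤ) := by omega
      have hjr : j ∈ range d := by rw [Finset.mem_range]; omega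
      have hjd : (j : ℤ) < d := by exact_mod_cast Finset.mem_range.mp hjr
      have hfac0 : 0 ≤ fac d m ζ j := by
        have h1 : (0 : ℝ) < (m (j : ℤ) : ℝ) := by exact_mod_cast h.pos (j : ℤ) (by positivity) hjd
        unfold fac
        positivity
      have hb : ∀ u ∈ Icc (-(B : ℤ)) B, w x u * (Qx d m r w B M Y)^[k] (V M θ) (T d m r x + u) ≤
          w x u * (R ^ k * (R * |(x : ℝ)| ^ θ)) := by
        intro u hu
        have hu' : |u| ≤ B := by
          rw [Finset.mem_Icc] at hu
          exact abs_le.mpr hu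
        have h3 := step_bound h hζ B j hjr ((hM j hjr).trans hx.1) x hjj le_rfl u hu'
        refine mul_le_mul_of_nonneg_left ?_ (hW.nonneg x u)
        refine (ih _).trans (mul_le_mul_of_nonneg_left ?_ (pow_nonneg hR0 k))
        calc |((T d m r x + u : ℤ) : ℝ)| ^ θ ≤ (fac d m ζ j * |(x : ℝ)|) ^ θ :=
              Real.rpow_le_rpow (abs_nonneg _) h3 hθ.le
          _ = fac d m ζ j ^ θ * |(x : ℝ)| ^ θ := Real.mul_rpow hfac0 (abs_nonneg _)
          _ ≤ R * |(x : ℝ)| ^ θ := mul_le_mul_of_nonneg_right (hfR j hjr) hx0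
      calc ∑ u ∈ Icc (-(B : ℤ)) B, w x u * (Qx d m r w B M Y)^[k] (V M θ) (T d m r x + u)
          ≤ ∑ u ∈ Icc (-(B : ℤ)) B, w x u * (R ^ k * (R * |(x : ℝ)| ^ θ)) := Finset.sum_le_sum hb
        _ = (∑ u ∈ Icc (-(B : ℤ)) B, w x u) * (R ^ k * (R * |(x : ℝ)| ^ θ)) := by
            rw [Finset.sum_mul]
        _ ≤ 1 * (R ^ k * (R * |(x : ℝ)| ^ θ)) :=
            mul_le_mul_of_nonneg_right (hW.sum_le x) (by positivity)
        _ = R ^ (k + 1) * |(x : ℝ)| ^ θ := by ring
    · positivity

theorem t_AVGx : S_AVGx := by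
  intro d m r h θ ζ hθ hθ1 hζ B
  have hd : 0 < d := by have := h.two_le; omega
  have hdR : (0 : ℝ) < d := by exact_mod_cast hd
  have hfac0 : ∀ j ∈ range d, 0 ≤ fac d m ζ j := by
    intro j hj
    have hjd : (j : ℤ) < d := by exact_mod_cast Finset.mem_range.mp hj
    have h1 : (0 : ℝ) < (m (j : ℤ) : ℝ) := by exact_mod_cast h.pos (j : ℤ) (by positivity) hjd
    unfold fac
    positivity
  have hρ : 0 ≤ (∑ j ∈ range d, fac d m ζ j ^ θ) / d :=
    div_nonneg (Finset.sum_nonneg fun j hj => Real.rpow_nonneg (hfac0 j hj) _) hdR.le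
  set M₀ : ℝ := 1 + ∑ j ∈ range d, (|((r (j : ℤ) : ℤ) : ℝ)| + d * B) / ζ with hM₀
  have hterm : ∀ j ∈ range d, (|((r (j : ℤ) : ℤ) : ℝ)| + d * B) / ζ ≤ M₀ := by
    intro j hj
    have := Finset.single_le_sum (f := fun j : ℕ => (|((r (j : ℤ) : ℤ) : ℝ)| + d * B) / ζ)
      (fun i _ => by positivity) hj
    have h2 : (|((r (j : ℤ) : ℤ) : ℝ)| + d * B) / ζ ≤
      ∑ j ∈ range d, (|((r (j : ℤ) : ℤ) : ℝ)| + d * B) / ζ := this
    linarith
  have hM₀1 : 1 ≤ M₀ := by
    have : 0 ≤ ∑ j ∈ range d, (|((r (j : ℤ) : ℤ) : ℝ)| + d * B) / ζ :=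
      Finset.sum_nonneg fun i _ => by positivity
    linarith
  refine ⟨M₀, hM₀1, ?_⟩
  intro M hM Y η R w hη hW hR hfR
  have hw := hW.nonneg
  have hR0 : 0 ≤ R := by linarith
  have hρR : (∑ j ∈ range d, fac d m ζ j ^ θ) / d ≤ R := by
    rw [div_le_iff₀ hdR]
    calc ∑ j ∈ range d, fac d m ζ j ^ θ ≤ ∑ j ∈ range d, R := Finset.sum_le_sum hfR
      _ = R * d := by rw [Finset.sum_const, Finset.card_range, nsmul_eq_mul, mul_comm]
  have hpw := fun k => pw (w := w) h hθ hζ (hM₀1.trans hM)
    (fun j hj => (hterm j hj).trans hM) hW hR hfR k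
  intro k
  induction k with
  | zero =>
    intro i _ c y _ z hz hxz
    simp only [Function.iterate_zero, id_eq, pow_zero, mul_one, Nat.cast_zero, mul_zero, add_zero]
    have h1 : ∀ u ∈ range (d ^ i), V M θ (y + c * u) ≤ z ^ θ := by
      intro u hu
      unfold V
      split_ifs
      · exact Real.rpow_nonneg hz _
      · have := hxz u (Finset.mem_range.mp hu)
        exact Real.rpow_le_rpow (abs_nonneg _) this hθ.le
    calc ∑ u ∈ range (d ^ i), V M θ (y + c * u) ≤ ∑ u ∈ range (d ^ i), z ^ θ := Finset.sum_le_sum h1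
      _ = (d : ℝ) ^ i * z ^ θ := by simp
  | succ k ih =>
    intro i hki c y hc z hz hxz
    obtain ⟨i', rfl⟩ : ∃ i', i = i' + 1 := ⟨i - 1, by omega⟩
    have hki' : k ≤ i' := by omega
    set F : ℤ → ℝ := (Qx d m r w B M Y)^[k] (V M θ) with hF
    have hF0 : ∀ x, 0 ≤ F x := Qxit_nonneg hw B M Y θ k
    have hFR : ∀ x : ℤ, F x ≤ R ^ k * |(x : ℝ)| ^ θ := hpw k
    have hit : ∀ x, (Qx d m r w B M Y)^[k + 1] (V M θ) x = Qx d m r w B M Y F x := by
      intro x
      rw [Function.iterate_succ_apply']
    simp only [hit]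
    have hzθ := Real.rpow_nonneg hz θ
    by_cases hzM : z < M
    · have h0 : ∀ u ∈ range (d ^ (i' + 1)), Qx d m r w B M Y F (y + c * u) = 0 := by
        intro u hu
        unfold Qx
        rw [if_neg]
        have := hxz u (Finset.mem_range.mp hu)
        intro h1
        linarith [h1.1]
      rw [Finset.sum_eq_zero h0]
      positivity
    · push Not at hzM
      -- the bound for a fixed class `s`
      have key : ∀ s ∈ range d, ∑ v ∈ range (d ^ i'),
          Qx d m r w B M Y F (y + c * ((s + d * v : ℕ) : ℤ)) ≤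
          (d : ℝ) ^ i' * (((∑ j ∈ range d, fac d m ζ j ^ θ) / d) ^ k + η * k * R ^ k + η * R ^ k) *
            (fac d m ζ ((y + c * (s : ℤ)) % d).toNat ^ θ * z ^ θ) := by
        intro s hs
        set j : ℕ := ((y + c * (s : ℤ)) % d).toNat with hj
        have hd' : (0 : ℤ) < d := by exact_mod_cast hd
        have hj1 := Int.emod_nonneg (y + c * (s : ℤ)) hd'.ne'
        have hj2 := Int.emod_lt_of_pos (y + c * (s : ℤ)) hd'
        have hjj : (y + c * (s : ℤ)) % d = (j : ℤ) := by omega
        have hjr : j ∈ range d := by rw [Finset.mem_range]; omega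
        have hxv : ∀ v : ℕ, y + c * ((s + d * v : ℕ) : ℤ) = (y + c * s) + d * (c * v) := by
          intro v; push_cast; ring
        have hTv : ∀ v : ℕ, T d m r (y + c * ((s + d * v : ℕ) : ℤ))
            = T d m r (y + c * s) + m (j : ℤ) * c * v := by
          intro v
          rw [hxv v, T_shift hd, hjj]
          ring
        have hb : ∀ v : ℕ, v < d ^ i' → ∀ u ∈ Icc (-(B : ℤ)) B,
            |((T d m r (y + c * s) + u + m (j : ℤ) * c * v : ℤ) : ℝ)| ≤ fac d m ζ j * z := by
          intro v hv u hu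
          have hu' : |u| ≤ B := by
            rw [Finset.mem_Icc] at hu
            exact abs_le.mpr hu
          have hlt : s + d * v < d ^ (i' + 1) := by
            have hs' := Finset.mem_range.mp hs
            calc s + d * v < d + d * v := by omega
              _ = d * (v + 1) := by ring
              _ ≤ d * d ^ i' := Nat.mul_le_mul_left _ hv
              _ = d ^ (i' + 1) := by ring
          have h1 := hxz _ hlt
          have h2 : (y + c * ((s + d * v : ℕ) : ℤ)) % d = (j : ℤ) := by
            rw [hxv v, Int.add_mul_emod_self_left, hjj]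
          have h3 := step_bound h hζ B j hjr ((hterm j hjr).trans (hM.trans hzM)) _ h2 h1 u hu'
          rw [hTv v] at h3
          have h4 : T d m r (y + c * s) + u + m (j : ℤ) * c * v
              = T d m r (y + c * s) + m (j : ℤ) * c * v + u := by ring
          rw [h4]
          exact h3
        have hcop : IsCoprime (m (j : ℤ) * c) (d : ℤ) := by
          have hjd : (j : ℤ) < d := by exact_mod_cast Finset.mem_range.mp hjr
          exact IsCoprime.mul_left (h.cop (j : ℤ) (by positivity) hjd) hc
        have hih : ∀ u ∈ Icc (-(B : ℤ)) B,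
            ∑ v ∈ range (d ^ i'), F (T d m r (y + c * s) + u + m (j : ℤ) * c * v) ≤
              (d : ℝ) ^ i' * (((∑ j ∈ range d, fac d m ζ j ^ θ) / d) ^ k + η * k * R ^ k) *
                (fac d m ζ j * z) ^ θ := by
          intro u hu
          exact ih i' hki' (m (j : ℤ) * c) (T d m r (y + c * s) + u) hcop (fac d m ζ j * z)
            (mul_nonneg (hfac0 j hjr) hz) (fun v hv => hb v hv u hu)
        have hrpow : (fac d m ζ j * z) ^ θ = fac d m ζ j ^ θ * z ^ θ := Real.mul_rpow (hfac0 j hjr) hz
        have hfj := Real.rpow_nonneg (hfac0 j hjr) θ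
        have hX : 0 ≤ (d : ℝ) ^ i' * (((∑ j ∈ range d, fac d m ζ j ^ θ) / d) ^ k + η * k * R ^ k) *
            (fac d m ζ j ^ θ * z ^ θ) := by positivity
        have hfz : 0 ≤ η * R ^ k * (fac d m ζ j ^ θ * z ^ θ) := by positivity
        by_cases hex : ∃ v0 : ℕ, M ≤ |((y + c * ((s + d * v0 : ℕ) : ℤ) : ℤ) : ℝ)| ∧
            |((y + c * ((s + d * v0 : ℕ) : ℤ) : ℤ) : ℝ)| < Y
        · obtain ⟨v0, hv0⟩ := hex
          set xs : ℤ := y + c * ((s + d * v0 : ℕ) : ℤ) with hxs
          have hone : ∀ v ∈ range (d ^ i'), Qx d m r w B M Y F (y + c * ((s + d * v : ℕ) : ℤ)) ≤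
              (∑ u ∈ Icc (-(B : ℤ)) B,
                w xs u * F (T d m r (y + c * s) + u + m (j : ℤ) * c * v)) +
                η * R ^ k * (fac d m ζ j ^ θ * z ^ θ) := by
            intro v hv
            have hs0 : 0 ≤ ∑ u ∈ Icc (-(B : ℤ)) B,
                w xs u * F (T d m r (y + c * s) + u + m (j : ℤ) * c * v) :=
              Finset.sum_nonneg fun u _ => mul_nonneg (hw _ _) (hF0 _)
            unfold Qx
            split_ifs with hin
            · set xv : ℤ := y + c * ((s + d * v : ℕ) : ℤ) with hxv'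
              have hTT : ∀ u : ℤ, T d m r xv + u = T d m r (y + c * s) + u + m (j : ℤ) * c * v := by
                intro u
                rw [hTv v]
                ring
              have hFle : ∀ u ∈ Icc (-(B : ℤ)) B,
                  F (T d m r (y + c * s) + u + m (j : ℤ) * c * v) ≤
                    R ^ k * (fac d m ζ j ^ θ * z ^ θ) := by
                intro u hu
                refine (hFR _).trans (mul_le_mul_of_nonneg_left ?_ (pow_nonneg hR0 k))
                rw [← hrpow]
                exact Real.rpow_le_rpow (abs_nonneg _) (hb v (Finset.mem_range.mp hv) u hu) hθ.le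
              have hslow := hW.slow xv xs hin.1 hin.2 hv0.1 hv0.2
              calc ∑ u ∈ Icc (-(B : ℤ)) B, w xv u * F (T d m r xv + u)
                  ≤ ∑ u ∈ Icc (-(B : ℤ)) B,
                    (w xs u * F (T d m r (y + c * s) + u + m (j : ℤ) * c * v) +
                      |w xv u - w xs u| * (R ^ k * (fac d m ζ j ^ θ * z ^ θ))) := by
                    refine Finset.sum_le_sum fun u hu => ?_
                    rw [hTT u]
                    have h1 : w xv u * F (T d m r (y + c * s) + u + m (j : ℤ) * c * v) =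
                        w xs u * F (T d m r (y + c * s) + u + m (j : ℤ) * c * v) +
                        (w xv u - w xs u) *
                          F (T d m r (y + c * s) + u + m (j : ℤ) * c * v) := by ring
                    rw [h1]
                    have h2 : (w xv u - w xs u) * F (T d m r (y + c * s) + u + m (j : ℤ) * c * v) ≤
                        |w xv u - w xs u| * F (T d m r (y + c * s) + u + m (j : ℤ) * c * v) :=
                      mul_le_mul_of_nonneg_right (le_abs_self _) (hF0 _)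
                    have h3 : |w xv u - w xs u| *
                          F (T d m r (y + c * s) + u + m (j : ℤ) * c * v) ≤
                        |w xv u - w xs u| * (R ^ k * (fac d m ζ j ^ θ * z ^ θ)) :=
                      mul_le_mul_of_nonneg_left (hFle u hu) (abs_nonneg _)
                    linarith
                _ = (∑ u ∈ Icc (-(B : ℤ)) B,
                      w xs u * F (T d m r (y + c * s) + u + m (j : ℤ) * c * v)) +
                    (∑ u ∈ Icc (-(B : ℤ)) B, |w xv u - w xs u|) *
                      (R ^ k * (fac d m ζ j ^ θ * z ^ θ)) := by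
                    rw [Finset.sum_add_distrib, Finset.sum_mul]
                _ ≤ (∑ u ∈ Icc (-(B : ℤ)) B,
                      w xs u * F (T d m r (y + c * s) + u + m (j : ℤ) * c * v)) +
                    η * (R ^ k * (fac d m ζ j ^ θ * z ^ θ)) := by
                    have : 0 ≤ R ^ k * (fac d m ζ j ^ θ * z ^ θ) := by positivity
                    have := mul_le_mul_of_nonneg_right hslow this
                    linarith
                _ = _ := by ring
            · linarith
          calc ∑ v ∈ range (d ^ i'), Qx d m r w B M Y F (y + c * ((s + d * v : ℕ) : ℤ))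
              ≤ ∑ v ∈ range (d ^ i'), ((∑ u ∈ Icc (-(B : ℤ)) B,
                w xs u * F (T d m r (y + c * s) + u + m (j : ℤ) * c * v)) +
                η * R ^ k * (fac d m ζ j ^ θ * z ^ θ)) := Finset.sum_le_sum hone
            _ = (∑ u ∈ Icc (-(B : ℤ)) B, w xs u *
                  ∑ v ∈ range (d ^ i'), F (T d m r (y + c * s) + u + m (j : ℤ) * c * v)) +
                (d : ℝ) ^ i' * (η * R ^ k * (fac d m ζ j ^ θ * z ^ θ)) := by
                rw [Finset.sum_add_distrib, Finset.sum_comm, Finset.sum_const, Finset.card_range,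
                  nsmul_eq_mul, Nat.cast_pow]
                congr 1
                refine Finset.sum_congr rfl fun u _ => ?_
                rw [Finset.mul_sum]
            _ ≤ (∑ u ∈ Icc (-(B : ℤ)) B, w xs u *
                  ((d : ℝ) ^ i' * (((∑ j ∈ range d, fac d m ζ j ^ θ) / d) ^ k + η * k * R ^ k) *
                    (fac d m ζ j ^ θ * z ^ θ))) +
                (d : ℝ) ^ i' * (η * R ^ k * (fac d m ζ j ^ θ * z ^ θ)) := by
                refine add_le_add (Finset.sum_le_sum fun u hu => ?_) le_rfl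
                have := hih u hu
                rw [hrpow] at this
                exact mul_le_mul_of_nonneg_left this (hw xs u)
            _ = (∑ u ∈ Icc (-(B : ℤ)) B, w xs u) *
                  ((d : ℝ) ^ i' * (((∑ j ∈ range d, fac d m ζ j ^ θ) / d) ^ k + η * k * R ^ k) *
                    (fac d m ζ j ^ θ * z ^ θ)) +
                (d : ℝ) ^ i' * (η * R ^ k * (fac d m ζ j ^ θ * z ^ θ)) := by rw [Finset.sum_mul]
            _ ≤ 1 * ((d : ℝ) ^ i' * (((∑ j ∈ range d, fac d m ζ j ^ θ) / d) ^ k + η * k * R ^ k) *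
                    (fac d m ζ j ^ θ * z ^ θ)) +
                (d : ℝ) ^ i' * (η * R ^ k * (fac d m ζ j ^ θ * z ^ θ)) :=
                add_le_add (mul_le_mul_of_nonneg_right (hW.sum_le xs) hX) le_rfl
            _ = _ := by ring
        · push Not at hex
          have h0 : ∀ v ∈ range (d ^ i'),
              Qx d m r w B M Y F (y + c * ((s + d * v : ℕ) : ℤ)) = 0 := by
            intro v _
            unfold Qx
            rw [if_neg]
            intro h1
            exact absurd h1.2 (not_lt.mpr (hex v h1.1))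
          rw [Finset.sum_eq_zero h0]
          positivity
      have hpow : d ^ (i' + 1) = d * d ^ i' := by ring
      rw [hpow, sum_split d (d ^ i') (fun u => Qx d m r w B M Y F (y + c * (u : ℤ)))]
      refine (Finset.sum_le_sum key).trans ?_
      rw [← Finset.mul_sum, ← Finset.sum_mul, sum_residues hd hc y (fun j => fac d m ζ j ^ θ)]
      generalize hSdef : (∑ j ∈ range d, fac d m ζ j ^ θ) = S at *
      have hS : S = d * (S / d) := by field_simp
      generalize hρ' : S / (d : ℝ) = ρ' at *
      rw [hS]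
      have hfin : ρ' * (ρ' ^ k + η * k * R ^ k + η * R ^ k) ≤
          ρ' ^ (k + 1) + η * ((k + 1 : ℕ) : ℝ) * R ^ (k + 1) := by
        have h1 : ρ' * (η * ((k : ℝ) + 1) * R ^ k) ≤ R * (η * ((k : ℝ) + 1) * R ^ k) :=
          mul_le_mul_of_nonneg_right hρR (by positivity)
        push_cast
        calc ρ' * (ρ' ^ k + η * k * R ^ k + η * R ^ k)
            = ρ' ^ (k + 1) + ρ' * (η * ((k : ℝ) + 1) * R ^ k) := by ring
          _ ≤ ρ' ^ (k + 1) + R * (η * ((k : ℝ) + 1) * R ^ k) := by linarith
          _ = _ := by ring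
      calc (d : ℝ) ^ i' * (ρ' ^ k + η * k * R ^ k + η * R ^ k) * (d * ρ' * z ^ θ)
          = (d : ℝ) ^ (i' + 1) * (ρ' * (ρ' ^ k + η * k * R ^ k + η * R ^ k)) * z ^ θ := by ring
        _ ≤ (d : ℝ) ^ (i' + 1) * (ρ' ^ (k + 1) + η * ((k + 1 : ℕ) : ℝ) * R ^ (k + 1)) * z ^ θ := by
            gcongr

end Pool.Agent.U858.DZ
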